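import Mathlib
import Pool.Agent.H577R3.RM.Stmts

set_option autoImplicit false

/-! Most tuples of reduced words satisfy the rank condition. -/

namespace Pool.Agent.H844R3.RM.PROB

open Pool.Agent.Helper777.Prof Pool.Agent.H577R3 Pool.Agent.H577R3.RM Filter Topology

/-! ### The deterministic part -/

theorem ind_zero {n ℓ m : ℕ} {K : Type} [Field K] (r : Fin m → Fin ℓ → Lt n) (θ : Fin n → Kˣ)
    (I : Finset (Fin n)) : Ind r θ 0 I := by
  unfold Ind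
  have : IsEmpty {l : Fin m // l.1 < 0} := ⟨fun l => absurd l.2 (Nat.not_lt_zero _)⟩
  exact linearIndependent_empty_type

theorem abv_wd (h8 : TaskFOXW) {n ℓ : ℕ} (w : Fin ℓ → Lt n) : abv (wd w) = pos w ℓ := by
  unfold abv
  rw [(h8 n ℓ w).2.1]
  rfl

theorem trs_ne {K : Type} [Field K] {n : ℕ} (θ : Fin n → Kˣ) (h : Trs θ) :
    (fun x : Fin n => ((θ x : Kˣ) : K) - 1) ≠ 0 := by
  obtain ⟨c, hc⟩ := h
  intro h0
  have h1 : ((θ c : Kˣ) : K) - 1 = 0 := congrFun h0 c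
  have h2 := hc (Polynomial.X - 1) (by simpa using h1) 1
  rw [Polynomial.coeff_sub, Polynomial.coeff_X_one, Polynomial.coeff_one] at h2
  simp at h2

theorem det {n ℓ m S0 : ℕ} (hmn : m + 2 ≤ n) (h2 : TaskEXC) (h6 : TaskTR) (h7 : TaskPAIR)
    (h8 : TaskFOXW) (r : Fin m → Fin ℓ → Lt n)
    (hlin : ∀ i : Fin n, LinearIndependent ℤ
      (Sum.elim (fun j => pos (r j) ℓ) (fun _ : Unit => (Pi.single i 1 : Fin n → ℤ))))
    (hspr : ∀ j, ∀ k k' : Fin n, k ≠ k' → Spr S0 k k' (r j))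
    (hG : ∀ C j i i', i ≠ i' → ¬ BadG S0 C j i i' r)
    (hH : ∀ C j i i', i ≠ i' → ¬ BadH S0 C j i i' r) :
    ∃ C, IsC (fun l => abv (wd (r l))) C ∧ RankOK (fun l => wd (r l)) C := by
  have hab : (fun l => abv (wd (r l))) = fun l => pos (r l) ℓ := by
    funext l
    exact abv_wd h8 _
  have hv : LinearIndependent ℤ (fun l => pos (r l) ℓ) := by
    have h := (hlin ⟨0, by omega⟩).comp (Sum.inl : Fin m → Fin m ⊕ Unit) Sum.inl_injective
    exact h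
  obtain ⟨C, hC⟩ := h2 n m _ hv
  have hcard : 2 ≤ C.card := by
    have := hC.1
    omega
  have hGR : ∀ j : ℕ, j ≤ m → ∀ i i' : Fin n, i ≠ i' → GR C r j i i' := by
    intro j
    induction j with
    | zero =>
      intro _ i i' _ K _ θ _ _
      exact ind_zero r θ _
    | succ j ih =>
      intro hj i i' hii
      by_contra hcon
      exact hG C ⟨j, by omega⟩ i i' hii ⟨hC, hlin i, hspr _, ih (by omega) i i' hii, hcon⟩
  refine ⟨C, by rw [hab]; exact hC, ?_⟩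
  intro K _ θ hθ hgt
  have hθ' : ∀ l, mon θ (Multiplicative.ofAdd (pos (r l) ℓ)) = 1 := by
    intro l
    have := hθ l
    rw [(h8 n ℓ (r l)).2.1] at this
    exact this
  have htrs : Trs θ := (h6 n C K θ).1 hcard hgt
  have hy := trs_ne θ htrs
  have hInd : ∀ j : ℕ, j ≤ m → Ind r θ j Finset.univ := by
    intro j
    induction j with
    | zero =>
      intro _
      exact ind_zero r θ _
    | succ j ih =>
      intro hj
      by_contra hcon
      obtain ⟨z, hz, i, i', hii, hne⟩ :=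
        (h7 K n m j (fun l x => evl θ (fox (r l) x))).1 _ hy (by omega)
      exact hH C ⟨j, by omega⟩ i i' hii
        ⟨hC, hspr _, hGR (j + 1) hj i i' hii, K, _, θ, hθ', hgt, ih (by omega), ⟨z, hz, hne⟩, hcon⟩
  have hfin := hInd m le_rfl
  unfold Ind at hfin
  have h3 := hfin.comp (fun l : Fin m => (⟨l, l.2⟩ : {l : Fin m // l.1 < m}))
    (fun a b hab => by simpa using hab)
  refine LinearIndependent.of_comp
    (LinearMap.funLeft K K (fun x : {x : Fin n // x ∈ (Finset.univ : Finset (Fin n))} => x.1)) ?_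
  convert h3 using 1
  funext l x
  simp only [Function.comp_apply, LinearMap.funLeft_apply]
  rw [(h8 n ℓ (r l)).1]

/-! ### Negligible events -/

/-- the ratio of the tuples with the property `P` -/
noncomputable def rat (n m ℓ : ℕ) (P : (Fin m → RW n ℓ) → Prop) : ℝ :=
  (Nat.card {r : Fin m → RW n ℓ // P r} : ℝ) / Nat.card (Fin m → RW n ℓ)

theorem rat_nonneg (n m ℓ : ℕ) (P : (Fin m → RW n ℓ) → Prop) : 0 ≤ rat n m ℓ P := by
  unfold rat
  positivity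

theorem card_mono {α : Type} [Finite α] (P Q : α → Prop) (h : ∀ a, P a → Q a) :
    Nat.card {a // P a} ≤ Nat.card {a // Q a} :=
  Nat.card_le_card_of_injective (fun a : {a // P a} => (⟨a.1, h _ a.2⟩ : {a // Q a}))
    (fun a b hab => Subtype.ext (by simpa using hab))

theorem card_ex {α ι : Type} [Finite α] [Fintype ι] (P : ι → α → Prop) :
    Nat.card {a // ∃ i, P i a} ≤ ∑ i, Nat.card {a // P i a} := by
  classical
  have := Fintype.ofFinite α
  have e1 : ∀ Q : α → Prop, Nat.card {a // Q a} = (Finset.univ.filter Q).card := by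
    intro Q
    rw [Nat.card_eq_fintype_card, Fintype.card_subtype]
  rw [e1]
  simp only [e1]
  refine le_trans (Finset.card_le_card ?_) Finset.card_biUnion_le
  intro a ha
  simp only [Finset.mem_filter, Finset.mem_univ, true_and, Finset.mem_biUnion] at ha ⊢
  exact ha

theorem card_not {α : Type} [Finite α] (P : α → Prop) :
    Nat.card {a // P a} + Nat.card {a // ¬ P a} = Nat.card α := by
  classical
  have := Fintype.ofFinite α
  rw [Nat.card_eq_fintype_card, Nat.card_eq_fintype_card, Nat.card_eq_fintype_card]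
  exact Fintype.card_subtype_compl P ▸ by
    have := Fintype.card_subtype_le P
    omega

theorem card_coord {α : Type} [Finite α] {m : ℕ} (j : Fin m) (Q : α → Prop) :
    Nat.card {r : Fin m → α // Q (r j)} * Nat.card α =
      Nat.card {a // Q a} * Nat.card (Fin m → α) := by
  rw [← Nat.card_prod, ← Nat.card_prod]
  refine Nat.card_congr
    { toFun := fun p => (⟨p.1.1 j, p.1.2⟩, Function.update p.1.1 j p.2)
      invFun := fun p => (⟨Function.update p.2 j p.1.1, by simpa using p.1.2⟩, p.2 j)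
      left_inv := ?_
      right_inv := ?_ }
  · rintro ⟨⟨r, hr⟩, a⟩
    simp
  · rintro ⟨⟨a, ha⟩, r⟩
    simp

theorem card_pos (n m ℓ : ℕ) (hn : 0 < n) : 0 < Nat.card (Fin m → RW n ℓ) ∧
    0 < Nat.card (RW n ℓ) := by
  have : Nonempty (RW n ℓ) := ⟨⟨fun _ => (⟨0, hn⟩, true), fun _ _ _ _ => rfl⟩⟩
  exact ⟨Nat.card_pos, Nat.card_pos⟩

/-- the ratio tends to zero -/
def Ng (n m : ℕ) (P : ∀ ℓ, (Fin m → RW n ℓ) → Prop) : Prop :=
  Tendsto (fun ℓ => rat n m ℓ (P ℓ)) atTop (𝓝 0)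

theorem Ng.mono {n m : ℕ} {P Q : ∀ ℓ, (Fin m → RW n ℓ) → Prop} (hQ : Ng n m Q)
    (h : ∀ ℓ r, P ℓ r → Q ℓ r) : Ng n m P := by
  refine squeeze_zero (fun ℓ => rat_nonneg _ _ _ _) (fun ℓ => ?_) hQ
  unfold rat
  gcongr
  exact card_mono _ _ (h ℓ)

theorem Ng.ex {n m : ℕ} {ι : Type} [Fintype ι] {P : ι → ∀ ℓ, (Fin m → RW n ℓ) → Prop}
    (h : ∀ i, Ng n m (P i)) : Ng n m (fun ℓ r => ∃ i, P i ℓ r) := by
  have h1 : Tendsto (fun ℓ => ∑ i, rat n m ℓ (P i ℓ)) atTop (𝓝 0) := by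
    have := tendsto_finsetSum (Finset.univ : Finset ι) (fun i _ => h i)
    simpa using this
  refine squeeze_zero (fun ℓ => rat_nonneg _ _ _ _) (fun ℓ => ?_) h1
  unfold rat
  rw [← Finset.sum_div]
  gcongr
  have := card_ex (fun i => P i ℓ)
  exact_mod_cast this

theorem Ng.or {n m : ℕ} {P Q : ∀ ℓ, (Fin m → RW n ℓ) → Prop} (hP : Ng n m P) (hQ : Ng n m Q) :
    Ng n m (fun ℓ r => P ℓ r ∨ Q ℓ r) := by
  have h := Ng.ex (ι := Bool) (P := fun b => if b then P else Q)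
    (fun b => by cases b <;> simpa)
  refine h.mono (fun ℓ r hr => ?_)
  rcases hr with hr | hr
  · exact ⟨true, by simpa using hr⟩
  · exact ⟨false, by simpa using hr⟩

/-- events of polynomially bounded multiplicity against `2 ^ S0` -/
theorem Ng.bd {n m : ℕ} (hn : 0 < n) (S0 : ℕ → ℕ)
    (hS : ∀ D : ℕ, Tendsto (fun ℓ : ℕ => ((ℓ : ℝ) + 1) ^ D / 2 ^ (S0 ℓ)) atTop (𝓝 0))
    (P : ∀ ℓ, (Fin m → RW n ℓ) → Prop) (A : ℕ → ℕ) (c D : ℕ)
    (hA : ∀ ℓ, A ℓ ≤ c * (ℓ + 1) ^ D)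
    (hP : ∀ ℓ, Nat.card {r : Fin m → RW n ℓ // P ℓ r} * 2 ^ (S0 ℓ) ≤
      A ℓ * Nat.card (Fin m → RW n ℓ)) : Ng n m P := by
  have h1 : Tendsto (fun ℓ : ℕ => (c : ℝ) * (((ℓ : ℝ) + 1) ^ D / 2 ^ (S0 ℓ))) atTop (𝓝 0) := by
    have := (hS D).const_mul (c : ℝ)
    simpa using this
  refine squeeze_zero (fun ℓ => rat_nonneg _ _ _ _) (fun ℓ => ?_) h1
  unfold rat
  have hp : (0 : ℝ) < (Nat.card (Fin m → RW n ℓ) : ℝ) := by
    exact_mod_cast (card_pos n m ℓ hn).1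
  rw [div_le_iff₀ hp, ← mul_div_assoc, div_mul_eq_mul_div, le_div_iff₀ (by positivity)]
  have h2 : (Nat.card {r : Fin m → RW n ℓ // P ℓ r} * 2 ^ (S0 ℓ) : ℕ) ≤
      c * (ℓ + 1) ^ D * Nat.card (Fin m → RW n ℓ) :=
    (hP ℓ).trans (Nat.mul_le_mul_right _ (hA ℓ))
  exact_mod_cast h2

theorem EE_le (n ℓ D : ℕ) : EE n ℓ ^ D ≤ (n + 2) ^ ((n + 1) * D) * (ℓ + 1) ^ ((n + 1) * D) := by
  unfold EE
  rw [← pow_mul, ← mul_pow]
  refine Nat.pow_le_pow_left ?_ _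
  nlinarith

theorem spr_ng {n m : ℕ} (hn : 0 < n) (S0 : ℕ → ℕ) (j : Fin m)
    (hS : Tendsto (fun ℓ : ℕ => (Nat.card {w : RW n ℓ //
      ¬ ∀ k k' : Fin n, k ≠ k' → Spr (S0 ℓ) k k' w.1} : ℝ) /
    Nat.card (RW n ℓ)) atTop (𝓝 0)) :
    Ng n m (fun ℓ r => ¬ ∀ k k' : Fin n, k ≠ k' → Spr (S0 ℓ) k k' (r j).1) := by
  unfold Ng
  refine hS.congr (fun ℓ => ?_)
  unfold rat
  have h := card_coord (α := RW n ℓ) j
    (fun w => ¬ ∀ k k' : Fin n, k ≠ k' → Spr (S0 ℓ) k k' w.1)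
  have hp := card_pos n m ℓ hn
  have hp1 : (Nat.card (Fin m → RW n ℓ) : ℝ) ≠ 0 := by
    have := hp.1
    positivity
  have hp2 : (Nat.card (RW n ℓ) : ℝ) ≠ 0 := by
    have := hp.2
    positivity
  rw [div_eq_div_iff hp2 hp1]
  exact_mod_cast h.symm

theorem taskPROB (h1 : TaskLIN) (h2 : TaskEXC) (h3 : TaskSPR) (h4 : TaskBG) (h5 : TaskBH)
    (h6 : TaskTR) (h7 : TaskPAIR) (h8 : TaskFOXW) : TaskPROB := by
  intro m n hmn
  obtain ⟨S0, hS0, hSpr⟩ := h3 n (by omega)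
  obtain ⟨D, hD⟩ := h5 n
  have e1 : Ng n m (fun ℓ r => ∃ i : Fin n, ¬ LinearIndependent ℤ
      (Sum.elim (fun j => pos (r j).1 ℓ) (fun _ : Unit => (Pi.single i 1 : Fin n → ℤ)))) :=
    Ng.ex (fun i => h1 n m hmn i)
  have e2 : Ng n m (fun ℓ r => ∃ j : Fin m,
      ¬ ∀ k k' : Fin n, k ≠ k' → Spr (S0 ℓ) k k' (r j).1) :=
    Ng.ex (fun j => spr_ng (by omega) S0 j hSpr)
  have e3 : Ng n m (fun ℓ r => ∃ q : Finset (Fin n) × Fin m × {p : Fin n × Fin n // p.1 ≠ p.2},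
      BadG (S0 ℓ) q.1 q.2.1 q.2.2.1.1 q.2.2.1.2 (fun l => (r l).1)) := by
    refine Ng.ex (fun q => ?_)
    refine Ng.bd (by omega) S0 hS0 _ (fun ℓ => n * EE n ℓ ^ n)
      (n * (n + 2) ^ ((n + 1) * n)) ((n + 1) * n) (fun ℓ => ?_)
      (fun ℓ => h4 n ℓ m (S0 ℓ) q.1 q.2.1 _ _ hmn q.2.2.2)
    rw [mul_assoc]
    exact Nat.mul_le_mul_left _ (EE_le n ℓ n)
  have e4 : Ng n m (fun ℓ r => ∃ q : Finset (Fin n) × Fin m × {p : Fin n × Fin n // p.1 ≠ p.2},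
      BadH (S0 ℓ) q.1 q.2.1 q.2.2.1.1 q.2.2.1.2 (fun l => (r l).1)) := by
    refine Ng.ex (fun q => ?_)
    exact Ng.bd (by omega) S0 hS0 _ (fun ℓ => EE n ℓ ^ D)
      ((n + 2) ^ ((n + 1) * D)) ((n + 1) * D) (fun ℓ => EE_le n ℓ D)
      (fun ℓ => hD ℓ m (S0 ℓ) q.1 q.2.1 _ _ hmn q.2.2.2)
  have e5 : Ng n m (fun ℓ r => ¬ ∃ C, IsC (fun l => abv (wd (r l).1)) C ∧
      RankOK (fun l => wd (r l).1) C) := by
    refine ((e1.or e2).or (e3.or e4)).mono (fun ℓ r hr => ?_)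
    by_contra hcon
    push Not at hcon
    obtain ⟨⟨ha, hb⟩, hc, hd⟩ := hcon
    refine hr (det (S0 := S0 ℓ) hmn h2 h6 h7 h8 (fun l => (r l).1) ha (fun j k k' hk => hb j k k' hk)
      (fun C j i i' hii hbad => hc ⟨C, j, ⟨(i, i'), hii⟩⟩ hbad)
      (fun C j i i' hii hbad => hd ⟨C, j, ⟨(i, i'), hii⟩⟩ hbad))
  have e6 : Tendsto (fun ℓ => 1 - rat n m ℓ (fun r => ¬ ∃ C, IsC (fun l => abv (wd (r l).1)) C ∧
      RankOK (fun l => wd (r l).1) C)) atTop (𝓝 1) := by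
    have := e5.const_sub 1
    simpa using this
  refine e6.congr (fun ℓ => ?_)
  unfold rat
  have hp : (Nat.card (Fin m → RW n ℓ) : ℝ) ≠ 0 := by
    have := (card_pos n m ℓ (by omega)).1
    positivity
  have h := card_not (α := Fin m → RW n ℓ) (fun r => ∃ C, IsC (fun l => abv (wd (r l).1)) C ∧
      RankOK (fun l => wd (r l).1) C)
  have h' : (Nat.card {r : Fin m → RW n ℓ // ∃ C, IsC (fun l => abv (wd (r l).1)) C ∧
      RankOK (fun l => wd (r l).1) C} : ℝ) + (Nat.card {r : Fin m → RW n ℓ //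
      ¬ ∃ C, IsC (fun l => abv (wd (r l).1)) C ∧ RankOK (fun l => wd (r l).1) C} : ℝ) =
      (Nat.card (Fin m → RW n ℓ) : ℝ) := by
    exact_mod_cast h
  rw [eq_div_iff hp, sub_mul, div_mul_cancel₀ _ hp]
  linarith

end Pool.Agent.H844R3.RM.PROB
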